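import Mathlib
import Pool.Agent.R945.LD.BThree
import Pool.Agent.R945.LD.OneB

set_option autoImplicit false
set_option linter.unusedSectionVars false

namespace Pool.Agent.U301.LDThree

open Finset Matrix Pool.Agent.R945.LD NumberField Module

variable {p : ℕ} [Fact p.Prime]

lemma rowB {m : ℕ} (hm : p = 2 * m + 1) {R : Type*} [CommRing R] (j : Fin m) :
    ∑ k, Bm p m R j k = - xv p m R j := by
  have := congrArg (Int.cast : ℤ → R) (sum_B hm (J p j))
  simp only [Bm, Matrix.of_apply, xv]
  push_cast at this ⊢
  exact this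

/-- rank one update in the direction of the character column -/
lemma det_rank {m : ℕ} (hm : p = 2 * m + 1) {R : Type*} [CommRing R] (c : Fin m → R) :
    (Matrix.of fun j k : Fin m => Bm p m R j k + xv p m R j * c k).det =
      (Bm p m R).det * (1 - ∑ k, c k) := by
  have h1 : (Matrix.of fun j k : Fin m => Bm p m R j k + xv p m R j * c k) =
      Bm p m R * (1 + replicateCol Unit (fun _ => (-1 : R)) * replicateRow Unit c) := by
    rw [Matrix.mul_add, Matrix.mul_one, ← Matrix.mul_assoc]
    ext j k
    rw [Matrix.of_apply, Matrix.add_apply]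
    congr 1
    rw [Matrix.mul_apply]
    simp only [Finset.univ_unique, Finset.sum_singleton, replicateRow_apply, Matrix.mul_apply,
      replicateCol_apply, mul_neg, mul_one, Finset.sum_neg_distrib]
    rw [rowB hm]; ring
  rw [h1, det_mul, det_one_add_replicateCol_mul_replicateRow]
  congr 1
  simp only [dotProduct, mul_neg, mul_one, Finset.sum_neg_distrib]
  ring

/-- the `(m+1) × (m+1)` determinant with half sum `S` -/
theorem det_big_three {m : ℕ} (hm : p = 2 * m + 1) {R : Type*} [CommRing R]
    (x y z w : R) :
    (bd x (fun k => z * xv p m R k + x) (fun j => (y + 2) * xv p m R j + x)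
      (Matrix.of fun j k : Fin m => x + Bm p m R j k + xv p m R j * y + xv p m R k * z
      + xv p m R j * xv p m R k * w)).det =
      (Bm p m R).det * (p * x + (∑ k, xv p m R k) * ((y + 2) * z - w * x)) := by
  have hpm : (p : R) = 2 * m + 1 := by
    have := congrArg (Nat.cast : ℕ → R) hm
    push_cast at this; exact this
  set M : Matrix (Fin m) (Fin m) R := Matrix.of fun j k => Bm p m R j k
    - 2 * xv p m R j + w * xv p m R j * xv p m R k with hM
  have e := bd_elim x (fun k => z * xv p m R k) (fun j => (y + 2) * xv p m R j) M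
  have e1 : (Matrix.of fun j k : Fin m => x + Bm p m R j k + xv p m R j * y + xv p m R k * z
      + xv p m R j * xv p m R k * w) =
      Matrix.of fun j k => M j k + (y + 2) * xv p m R j + z * xv p m R k + x := by
    ext j k
    simp only [hM, Matrix.of_apply]
    ring
  rw [e1, e, bd_corner, bd_scale, bd_zero]
  have hMdet : M.det = (Bm p m R).det * (p - w * ∑ k, xv p m R k) := by
    have h := det_rank hm (fun k : Fin m => (-2 : R) + w * xv p m R k)
    have e2 : M = (Matrix.of fun j k : Fin m => Bm p m R j k + xv p m R j * (-2 + w * xv p m R k)) := by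
      ext j k
      simp only [hM, Matrix.of_apply]
      ring
    rw [e2, h, hpm, Finset.sum_add_distrib, ← Finset.mul_sum]
    simp
    ring
  have hMdet2 : (Matrix.of fun j k => M j k - xv p m R j * xv p m R k).det =
      (Bm p m R).det * (p - (w - 1) * ∑ k, xv p m R k) := by
    have h := det_rank hm (fun k : Fin m => (-2 : R) + (w - 1) * xv p m R k)
    have e2 : (Matrix.of fun j k => M j k - xv p m R j * xv p m R k) =
        (Matrix.of fun j k : Fin m => Bm p m R j k + xv p m R j * (-2 + (w - 1) * xv p m R k)) := by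
      ext j k
      simp only [hM, Matrix.of_apply]
      ring
    rw [e2, h, hpm, Finset.sum_add_distrib, ← Finset.mul_sum]
    simp
    ring
  rw [hMdet, hMdet2]
  ring

/-- the half sum and the class number -/
lemma half_sum (p : ℕ) [Fact p.Prime] (h5 : 5 ≤ p) (h3 : p % 4 = 3) (m : ℕ) (hm : p = 2 * m + 1)
    (K : Type) [Field K] [NumberField K] (h2 : finrank ℚ K = 2) (β : K) (hβ : β ^ 2 = -(p : K)) :
    ∑ j, xv p m ℤ j = (2 - q p 2) * (classNumber K : ℤ) := by
  have h1 := Pool.Agent.R441.CN.classNumber_three h5 h3 K h2 β hβ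
  have h4 := Pool.Agent.R343.CFP.S_T p h3
  have h6 := Pool.Agent.R343.CFP.S_range p m hm (by omega)
  have h7 : ∑ j, xv p m ℤ j = Pool.Agent.R343.CFP.S p := by
    rw [h6, ← Fin.sum_univ_eq_sum_range (fun s => jacobiSym ((s + 1 : ℕ) : ℤ) p)]
    apply Finset.sum_congr rfl
    intro j _
    rw [← jacobiSym.legendreSym.to_jacobiSym]
    simp only [xv, Pool.Agent.R945.LD.J, Int.cast_id]
    unfold legendreSym
    push_cast
    rfl
  have h8 : jacobiSym 2 p = q p 2 := by
    rw [← jacobiSym.legendreSym.to_jacobiSym]
    unfold legendreSym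
    push_cast
    rfl
  rw [h7]
  have hp0 : (p : ℤ) ≠ 0 := by omega
  apply mul_left_cancel₀ hp0
  rw [h4, h8]
  linear_combination (-(2 - q p 2)) * h1

end Pool.Agent.U301.LDThree
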