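import Mathlib
import Pool.Agent.U301.LDThree

set_option autoImplicit false
set_option linter.unusedSectionVars false

namespace Pool.Agent.U301.LDThree

open Finset Matrix Pool.Agent.R945.LD

/-! ### A congruence for multiplicative sign functions -/

section mult

variable (f : ℕ → ℤ)

/-- the half convolution `∑_{1 ≤ j ≤ c} f j * f (s - j)` -/
def hc (s c : ℕ) : ℤ := ∑ j ∈ range c, f (j + 1) * f (s - (j + 1))

/-- the product `∏_{1 ≤ i ≤ t} f i` -/
def Fp (t : ℕ) : ℤ := ∏ i ∈ range t, f (i + 1)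

/-- the partial sums -/
def Tp (t : ℕ) : ℤ := ∑ i ∈ range t, f (i + 1)

lemma pm_mul {a b : ℤ} (ha : a = 1 ∨ a = -1) (hb : b = 1 ∨ b = -1) : a * b = 1 ∨ a * b = -1 := by
  rcases ha with h | h <;> rcases hb with h' | h' <;> rw [h, h'] <;> norm_num

lemma Fp_pm (t : ℕ) (hf : ∀ i, 1 ≤ i → i ≤ t → f i = 1 ∨ f i = -1) : Fp f t = 1 ∨ Fp f t = -1 := by
  induction t with
  | zero => left; simp [Fp]
  | succ t ih =>
    unfold Fp at ih ⊢
    rw [prod_range_succ]
    exact pm_mul (ih (fun i h1 h2 => hf i h1 (by omega))) (hf _ (by omega) le_rfl)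

/-- `hc` modulo `4` -/
lemma hc_mod (s c : ℕ) (hcs : 2 * c < s)
    (hf : ∀ i, 1 ≤ i → i < s → f i = 1 ∨ f i = -1) :
    (4 : ℤ) ∣ hc f s c - (∏ j ∈ range c, f (j + 1) * f (s - (j + 1)) + c - 1) := by
  have h := prod_pm_mod_four (range c) (fun j => f (j + 1) * f (s - (j + 1))) (by
    intro j hj
    rw [mem_range] at hj
    exact pm_mul (hf _ (by omega) (by omega)) (hf _ (by omega) (by omega)))
  rw [card_range] at h
  obtain ⟨k, hk⟩ := h
  unfold hc
  exact ⟨-k, by linear_combination -hk⟩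

/-- the product over the first halves -/
lemma prod_half (c : ℕ) (s : ℕ) (hs : s = 2 * c + 1 ∨ s = 2 * c + 2) :
    (∏ j ∈ range c, f (j + 1) * f (s - (j + 1))) * (if s = 2 * c + 1 then 1 else f (c + 1)) = Fp f (s - 1) := by
  have key : ∏ j ∈ range c, f (s - (j + 1)) = ∏ j ∈ range c, f (s - c + j) := by
    rw [← Finset.prod_range_reflect]
    apply Finset.prod_congr rfl
    intro j hj
    rw [mem_range] at hj
    congr 1
    omega
  rw [Finset.prod_mul_distrib, key]
  unfold Fp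
  rcases hs with h | h
  · rw [if_pos h, h, mul_one, show 2 * c + 1 - 1 = c + c by omega, Finset.prod_range_add]
    congr 1
    apply Finset.prod_congr rfl
    intro j _
    congr 1
    omega
  · rw [if_neg (by omega), h, show 2 * c + 2 - 1 = (c + 1) + c by omega, Finset.prod_range_add,
      Finset.prod_range_succ]
    have : ∏ j ∈ range c, f (2 * c + 2 - c + j) = ∏ x ∈ range c, f (c + 1 + x + 1) := by
      apply Finset.prod_congr rfl
      intro j _
      congr 1
      omega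
    rw [this]
    ring

/-- half of the off-diagonal part of the triangle sum -/
def Vh (m : ℕ) : ℤ := ∑ l ∈ range m, (hc f (2 * l + 2) l + hc f (2 * l + 3) (l + 1))

lemma Vh_mod (e : ℤ) (he : e = 1 ∨ e = -1) (m : ℕ)
    (hf : ∀ i, 1 ≤ i → i ≤ 2 * m + 1 → f i = 1 ∨ f i = -1)
    (h2 : ∀ a, 1 ≤ a → a ≤ m → f (2 * a) = e * f a) :
    (4 : ℤ) ∣ Vh f m - ((m : ℤ) ^ 2 - 1 + e ^ m) := by
  induction m with
  | zero => simp [Vh]
  | succ m ih =>
    have ih := ih (fun i h1 h2 => hf i h1 (by omega)) (fun a h1 h3 => h2 a h1 (by omega))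
    have hstep : Vh f (m + 1) = Vh f m + (hc f (2 * m + 2) m + hc f (2 * m + 3) (m + 1)) := by
      unfold Vh; rw [sum_range_succ]
    have a1 := hc_mod f (2 * m + 2) m (by omega) (fun i h1 h2 => hf i h1 (by omega))
    have a2 := hc_mod f (2 * m + 3) (m + 1) (by omega) (fun i h1 h2 => hf i h1 (by omega))
    have b1 := prod_half f m (2 * m + 2) (Or.inr rfl)
    have b2 := prod_half f (m + 1) (2 * m + 3) (Or.inl (by ring))
    rw [if_neg (by omega), show 2 * m + 2 - 1 = 2 * m + 1 by omega] at b1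
    rw [if_pos (by omega), show 2 * m + 3 - 1 = 2 * m + 2 by omega, mul_one] at b2
    have c1 : Fp f (2 * m + 2) = Fp f (2 * m + 1) * f (2 * m + 2) := by
      unfold Fp; rw [prod_range_succ]
    have c2 : f (2 * m + 2) = e * f (m + 1) := by
      have := h2 (m + 1) (by omega) le_rfl
      rw [← this]; congr 1
    set A := ∏ j ∈ range m, f (j + 1) * f (2 * m + 2 - (j + 1)) with hA
    set B := ∏ j ∈ range (m + 1), f (j + 1) * f (2 * m + 3 - (j + 1)) with hB
    have hFpm := Fp_pm f (2 * m + 1) (fun i h1 h2 => hf i h1 (by omega))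
    have hfm := hf (m + 1) (by omega) (by omega)
    have hA' : A = Fp f (2 * m + 1) * f (m + 1) := by
      rw [← b1]
      rcases hfm with h | h <;> rw [h] <;> ring
    have hB' : B = e * A := by
      rw [b2, c1, c2, hA']; ring
    have hApm : A = 1 ∨ A = -1 := by rw [hA']; exact pm_mul hFpm hfm
    rw [hB'] at a2
    have hem : e ^ m = 1 ∨ e ^ m = -1 := by
      rcases he with h | h <;> rw [h]
      · left; simp
      · exact neg_one_pow_eq_or ℤ m
    have hpe : e ^ (m + 1) = e ^ m * e := pow_succ e m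
    have hsq : ((m + 1 : ℕ) : ℤ) ^ 2 = (m : ℤ) ^ 2 + 2 * m + 1 := by push_cast; ring
    rw [hstep, hpe, hsq]
    push_cast at a1 a2
    generalize e ^ m = E at *
    generalize (m : ℤ) ^ 2 = M2 at *
    rcases he with h | h <;> rcases hApm with h' | h' <;> rcases hem with h'' | h'' <;>
      rw [h'] at a1 a2 <;> rw [h] at a2 ⊢ <;> rw [h''] at ih ⊢ <;> omega

/-- the triangle sum `∑_{j + k ≤ n} f j f k` -/
def Vt (n : ℕ) : ℤ := ∑ k ∈ range n, f (k + 1) * Tp f (n - (k + 1))

lemma Vt_succ (n : ℕ) : Vt f (n + 1) = Vt f n + ∑ k ∈ range n, f (k + 1) * f (n + 1 - (k + 1)) := by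
  unfold Vt
  rw [sum_range_succ, ← sum_add_distrib]
  have h0 : Tp f (n + 1 - (n + 1)) = 0 := by simp [Tp]
  rw [h0, mul_zero, add_zero]
  apply sum_congr rfl
  intro k hk
  rw [mem_range] at hk
  have : n + 1 - (k + 1) = (n - (k + 1)) + 1 := by omega
  rw [this]
  unfold Tp
  rw [sum_range_succ]
  ring

/-- symmetric convolution, odd index -/
lemma conv_odd (c : ℕ) : ∑ k ∈ range (c + c), f (k + 1) * f (2 * c + 1 - (k + 1)) = 2 * hc f (2 * c + 1) c := by
  rw [sum_range_add]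
  have : ∑ x ∈ range c, f (c + x + 1) * f (2 * c + 1 - (c + x + 1)) = hc f (2 * c + 1) c := by
    unfold hc
    rw [← sum_range_reflect]
    apply sum_congr rfl
    intro j hj
    rw [mem_range] at hj
    rw [mul_comm]
    congr 2 <;> omega
  rw [this]
  unfold hc
  ring

/-- symmetric convolution, even index -/
lemma conv_even (c : ℕ) : ∑ k ∈ range (c + 1 + c), f (k + 1) * f (2 * c + 2 - (k + 1)) =
    2 * hc f (2 * c + 2) c + f (c + 1) * f (c + 1) := by
  rw [sum_range_add, sum_range_succ]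
  have : ∑ x ∈ range c, f (c + 1 + x + 1) * f (2 * c + 2 - (c + 1 + x + 1)) = hc f (2 * c + 2) c := by
    unfold hc
    rw [← sum_range_reflect]
    apply sum_congr rfl
    intro j hj
    rw [mem_range] at hj
    rw [mul_comm]
    congr 2 <;> omega
  rw [this, show 2 * c + 2 - (c + 1) = c + 1 by omega]
  unfold hc
  ring

lemma Vt_eq (m : ℕ) (hf : ∀ i, 1 ≤ i → i ≤ 2 * m + 1 → f i = 1 ∨ f i = -1) :
    Vt f (2 * m + 1) = m + 2 * Vh f m := by
  induction m with
  | zero => simp [Vt, Vh, Tp]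
  | succ m ih =>
    have ih := ih (fun i h1 h2 => hf i h1 (by omega))
    have e1 := Vt_succ f (2 * m + 2)
    have e2 := Vt_succ f (2 * m + 1)
    have c1 := conv_even f m
    have c2 := conv_odd f (m + 1)
    rw [show m + 1 + m = 2 * m + 1 by ring] at c1
    rw [show m + 1 + (m + 1) = 2 * m + 2 by ring, show 2 * (m + 1) + 1 = 2 * m + 2 + 1 by ring] at c2
    rw [show 2 * m + 1 + 1 = 2 * m + 2 by ring, c1, ih] at e2
    rw [c2, e2] at e1
    rw [show 2 * (m + 1) + 1 = 2 * m + 2 + 1 by ring, e1]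
    have hstep : Vh f (m + 1) = Vh f m + (hc f (2 * m + 2) m + hc f (2 * m + 3) (m + 1)) := by
      unfold Vh; rw [sum_range_succ]
    rw [hstep]
    have hsq : f (m + 1) * f (m + 1) = 1 := by
      rcases hf (m + 1) (by omega) (by omega) with h | h <;> rw [h] <;> norm_num
    rw [hsq]
    push_cast
    ring

/-- the main congruence -/
lemma main_mod (e : ℤ) (he : e = 1 ∨ e = -1) (m : ℕ) (hem : e ^ m = 1)
    (hf : ∀ i, 1 ≤ i → i ≤ 2 * m + 1 → f i = 1 ∨ f i = -1)
    (h2 : ∀ a, 1 ≤ a → a ≤ m → f (2 * a) = e * f a) (S : ℤ) (hS : S % 2 = 1) :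
    (16 : ℤ) ∣ S ^ 2 + (2 * m + 1 : ℕ) * (2 * Vt f (2 * m + 1) - S ^ 2) := by
  have h := Vh_mod f e he m hf h2
  rw [hem] at h
  obtain ⟨t, ht⟩ := h
  have hS8 : (8 : ℤ) ∣ S ^ 2 - 1 := by
    obtain ⟨s, hs⟩ : ∃ s, S = 2 * s + 1 := ⟨S / 2, by omega⟩
    have h2 : (2 : ℤ) ∣ s * (s + 1) := (Int.even_mul_succ_self s).two_dvd
    obtain ⟨r, hr⟩ := h2
    exact ⟨r, by rw [hs]; linear_combination 4 * hr⟩
  obtain ⟨u, hu⟩ := hS8
  have hm2 : (2 : ℤ) ∣ (m : ℤ) * (m + 1) := (Int.even_mul_succ_self (m : ℤ)).two_dvd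
  obtain ⟨r, hr⟩ := hm2
  rw [Vt_eq f m hf]
  have e1 : Vh f m = (m : ℤ) ^ 2 + 4 * t := by linear_combination ht
  have e2 : S ^ 2 = 1 + 8 * u := by linear_combination hu
  rw [e1, e2]
  refine ⟨(m : ℤ) * r + (2 * m + 1) * t - m * u, ?_⟩
  push_cast
  linear_combination (8 * (m : ℤ)) * hr

/-- twice the sum of products with the partial sums -/
lemma two_sum_T (n : ℕ) (hf : ∀ i, 1 ≤ i → i ≤ n → f i = 1 ∨ f i = -1) :
    2 * ∑ k ∈ range n, f (k + 1) * Tp f (k + 1) = Tp f n ^ 2 + n := by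
  induction n with
  | zero => simp [Tp]
  | succ n ih =>
    have ih := ih (fun i h1 h2 => hf i h1 (by omega))
    have hT : Tp f (n + 1) = Tp f n + f (n + 1) := by unfold Tp; rw [sum_range_succ]
    have hsq : f (n + 1) * f (n + 1) = 1 := by
      rcases hf (n + 1) (by omega) le_rfl with h | h <;> rw [h] <;> norm_num
    rw [sum_range_succ, mul_add, ih, hT]
    push_cast
    linear_combination hsq

end mult

end Pool.Agent.U301.LDThree
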