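import Mathlib
import Pool.Agent.U301.LDThreeB

set_option autoImplicit false
set_option linter.unusedSectionVars false

namespace Pool.Agent.U301.LDThree

open Finset Matrix Pool.Agent.R945.LD

variable {p : ℕ} [Fact p.Prime]

/-- the character as a function on naturals -/
noncomputable def fq (p : ℕ) [Fact p.Prime] (i : ℕ) : ℤ := q p (i : ZMod p)

lemma fq_pm {m : ℕ} (hm : p = 2 * m + 1) (i : ℕ) (h1 : 1 ≤ i) (h2 : i ≤ m) : fq p i = 1 ∨ fq p i = -1 := by
  apply mul_self_eq_one_iff.mp
  unfold fq
  apply q_sq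
  rw [Ne, ZMod.natCast_eq_zero_iff]
  intro h
  have := Nat.le_of_dvd (by omega) h
  omega

/-- the column sums of `B` in terms of the partial sums of the character -/
lemma col_sum (h3 : p % 4 = 3) {m : ℕ} (hm : p = 2 * m + 1) (k : ℕ) (hk : k ≤ m) :
    ∑ j ∈ range m, (q p ((j : ZMod p) + 1 + k) + q p ((j : ZMod p) + 1 - k)) =
      2 * Tp (fq p) (m - k) - 2 * Tp (fq p) k + q p (k : ZMod p) := by
  induction k with
  | zero =>
    unfold Tp fq
    simp only [Nat.cast_zero, add_zero, sub_zero, range_zero, sum_empty, Nat.sub_zero, q_zero,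
      mul_zero, mul_sum]
    apply sum_congr rfl
    intro j _
    push_cast
    ring
  | succ k ih =>
    have ih := ih (by omega)
    have e1 : ∑ j ∈ range m, (q p ((j : ZMod p) + 1 + (k + 1)) - q p ((j : ZMod p) + 1 + k)) =
        q p ((m : ZMod p) + 1 + k) - q p ((0 : ZMod p) + 1 + k) := by
      have := Finset.sum_range_sub (fun j : ℕ => q p ((j : ZMod p) + 1 + k)) m
      push_cast at this
      rw [← this]
      apply sum_congr rfl
      intro j _
      congr 2
      ring
    have e2 : ∑ j ∈ range m, (q p ((j : ZMod p) + 1 - (k + 1)) - q p ((j : ZMod p) + 1 - k)) =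
        q p (-(k : ZMod p)) - q p ((m : ZMod p) - k) := by
      have := Finset.sum_range_sub (fun j : ℕ => q p ((j : ZMod p) - k)) m
      push_cast at this
      rw [zero_sub] at this
      have h' := congrArg Neg.neg this
      rw [neg_sub, ← sum_neg_distrib] at h'
      rw [← h']
      apply sum_congr rfl
      intro j _
      rw [neg_sub]
      congr 2
      ring
    have hz : (2 * (m : ZMod p) + 1) = 0 := by
      have : ((2 * m + 1 : ℕ) : ZMod p) = 0 := by rw [← hm]; simp
      push_cast at this; exact this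
    have e3 : q p ((m : ZMod p) + 1 + k) = - q p ((m : ZMod p) - k) := by
      rw [← q_odd h3]; congr 1; linear_combination hz
    have e4 : q p (-(k : ZMod p)) = - q p (k : ZMod p) := q_odd h3 _
    have e5 : Tp (fq p) (m - k) = Tp (fq p) (m - (k + 1)) + q p ((m : ZMod p) - k) := by
      have : m - k = (m - (k + 1)) + 1 := by omega
      rw [this]
      unfold Tp
      rw [sum_range_succ]
      congr 1
      unfold fq
      rw [show m - (k + 1) + 1 = m - k by omega, Nat.cast_sub (by omega)]
    have e6 : Tp (fq p) (k + 1) = Tp (fq p) k + q p ((k : ZMod p) + 1) := by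
      unfold Tp
      rw [sum_range_succ]
      congr 1
      unfold fq
      push_cast
      rfl
    have e7 : ∑ j ∈ range m, (q p ((j : ZMod p) + 1 + (k + 1)) + q p ((j : ZMod p) + 1 - (k + 1))) =
        ∑ j ∈ range m, (q p ((j : ZMod p) + 1 + k) + q p ((j : ZMod p) + 1 - k)) +
        ∑ j ∈ range m, (q p ((j : ZMod p) + 1 + (k + 1)) - q p ((j : ZMod p) + 1 + k)) +
        ∑ j ∈ range m, (q p ((j : ZMod p) + 1 - (k + 1)) - q p ((j : ZMod p) + 1 - k)) := by
      rw [← sum_add_distrib, ← sum_add_distrib]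
      apply sum_congr rfl
      intro j _
      ring
    push_cast
    rw [e7, ih, e1, e2, e3, e4, e5, e6, zero_add, add_comm (1 : ZMod p) (k : ZMod p)]
    ring

/-- the integer `∑_{j,k} B_{jk} χ_k` -/
noncomputable def Wq (p : ℕ) [Fact p.Prime] (m : ℕ) : ℤ := ∑ j, ∑ k, Bm p m ℤ j k * xv p m ℤ k

lemma Wq_eq (h3 : p % 4 = 3) {m : ℕ} (hm : p = 2 * m + 1) :
    Wq p m = 2 * Vt (fq p) m - (∑ j, xv p m ℤ j) ^ 2 := by
  have h1 : Wq p m = ∑ k ∈ range m, fq p (k + 1) *
      (2 * Tp (fq p) (m - (k + 1)) - 2 * Tp (fq p) (k + 1) + fq p (k + 1)) := by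
    unfold Wq
    rw [sum_comm, ← Fin.sum_univ_eq_sum_range (fun k => fq p (k + 1) *
      (2 * Tp (fq p) (m - (k + 1)) - 2 * Tp (fq p) (k + 1) + fq p (k + 1)))]
    apply sum_congr rfl
    intro k _
    rw [← sum_mul, mul_comm]
    have h := col_sum h3 hm (k + 1) (by omega)
    have e : fq p (k + 1) = q p ((k + 1 : ℕ) : ZMod p) := rfl
    rw [e, ← h, ← Fin.sum_univ_eq_sum_range (fun j => q p ((j : ZMod p) + 1 + ((k + 1 : ℕ) : ZMod p))
      + q p ((j : ZMod p) + 1 - ((k + 1 : ℕ) : ZMod p)))]
    simp only [Bm, xv, Matrix.of_apply, Int.cast_id, R945.LD.J]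
    push_cast
    rfl
  have h2 : ∑ j, xv p m ℤ j = Tp (fq p) m := by
    unfold Tp
    rw [← Fin.sum_univ_eq_sum_range (fun j => fq p (j + 1))]
    apply sum_congr rfl
    intro j _
    simp only [xv, fq, Int.cast_id, R945.LD.J]
    push_cast
    rfl
  have h4 := two_sum_T (fq p) m (fq_pm hm)
  have h5 : ∑ k ∈ range m, fq p (k + 1) * fq p (k + 1) = m := by
    rw [sum_congr rfl (g := fun _ => (1 : ℤ))]
    · simp
    · intro k hk
      rw [mem_range] at hk
      rcases fq_pm hm (k + 1) (by omega) (by omega) with h | h <;> rw [h] <;> norm_num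
  have h6 : ∑ k ∈ range m, fq p (k + 1) *
      (2 * Tp (fq p) (m - (k + 1)) - 2 * Tp (fq p) (k + 1) + fq p (k + 1)) =
      2 * Vt (fq p) m - 2 * ∑ k ∈ range m, fq p (k + 1) * Tp (fq p) (k + 1)
      + ∑ k ∈ range m, fq p (k + 1) * fq p (k + 1) := by
    unfold Vt
    rw [mul_sum, mul_sum, ← sum_sub_distrib, ← sum_add_distrib]
    apply sum_congr rfl
    intro k _
    ring
  rw [h1, h6, h4, h5, h2]
  ring

/-- the divisibility by `16` -/
lemma sixteen (h3 : p % 4 = 3) {m : ℕ} (hm : p = 2 * m + 1) :
    (16 : ℤ) ∣ (∑ j, xv p m ℤ j) ^ 2 + m * Wq p m := by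
  have hp2 : p ≠ 2 := by omega
  obtain ⟨r, hr⟩ : ∃ r, m = 2 * r + 1 := ⟨m / 2, by omega⟩
  have he : q p 2 = 1 ∨ q p 2 = -1 := mul_self_eq_one_iff.mp (q_sq (two_ne hp2))
  have hq2 : q p 2 = if p % 8 = 7 then 1 else -1 := by
    show quadraticChar (ZMod p) 2 = _
    rw [quadraticChar_two (ringChar_ne hp2), ZMod.card, ZMod.χ₈_nat_eq_if_mod_eight, if_neg (by omega)]
    by_cases h8 : p % 8 = 7
    · rw [if_pos (by omega), if_pos h8]
    · rw [if_neg (by omega), if_neg h8]
  have hem : q p 2 ^ r = 1 := by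
    rw [hq2]
    split_ifs with h8
    · simp
    · apply Even.neg_one_pow
      rw [Nat.even_iff]; omega
  have hS : (∑ j, xv p m ℤ j) % 2 = 1 := by
    have hpar : (2 : ℤ) ∣ ∑ j, xv p m ℤ j - m := by
      have : ∑ j, xv p m ℤ j - m = ∑ j : Fin m, (xv p m ℤ j - 1) := by
        rw [Finset.sum_sub_distrib]; simp
      rw [this]
      apply Finset.dvd_sum
      intro j _
      rcases mul_self_eq_one_iff.mp (q_sq (J_ne hm j)) with h | h
      · simp only [xv, h]; norm_num
      · simp only [xv, h]; norm_num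
    omega
  have h := main_mod (fq p) (q p 2) he r hem (by
    intro i h1 h2; exact fq_pm hm i h1 (by omega)) (by
    intro a _ _
    unfold fq
    push_cast
    rw [q_mul]) (∑ j, xv p m ℤ j) hS
  rw [← hr, ← Wq_eq h3 hm] at h
  exact h

/-! ### the rank two update -/

lemma colB (h3 : p % 4 = 3) {m : ℕ} (hm : p = 2 * m + 1) {R : Type*} [CommRing R] (k : Fin m) :
    ∑ j, xv p m R j * Bm p m R j k = - 1 := by
  have hp2 : p ≠ 2 := by omega
  have h := fold m hm (fun b => q p (b + 0) * (q p (b + J p k) + q p (b - J p k)))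
  have e0 : ∀ b : ZMod p, q p (b + 0) * (q p (b + J p k) + q p (b - J p k)) =
      q p (0 + b) * q p (J p k + b) + q p (0 + b) * q p (-J p k + b) := by
    intro b
    rw [show b + 0 = 0 + b by ring, show b + J p k = J p k + b by ring,
      show b - J p k = - J p k + b by ring]
    ring
  have hJ := J_ne hm k
  have hbig : ∑ b : ZMod p, q p (b + 0) * (q p (b + J p k) + q p (b - J p k)) = - 1 + - 1 := by
    rw [Finset.sum_congr rfl (fun b _ => e0 b), Finset.sum_add_distrib, corr2 hp2, corr2 hp2,
      if_neg (by rw [zero_sub]; exact neg_ne_zero.mpr hJ), if_neg (by rw [zero_sub, neg_neg]; exact hJ)]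
    norm_num
  rw [hbig, add_zero, q_zero, zero_mul] at h
  have e1 : ∀ j : Fin m, q p (J p j + 0) * (q p (J p j + J p k) + q p (J p j - J p k)) +
      q p (-J p j + 0) * (q p (-J p j + J p k) + q p (-J p j - J p k)) =
      2 * (q p (J p j) * (q p (J p j + J p k) + q p (J p j - J p k))) := by
    intro j
    have i1 : q p (-J p j + J p k) = - q p (J p j - J p k) := by rw [← q_odd h3]; congr 1; ring
    have i2 : q p (-J p j - J p k) = - q p (J p j + J p k) := by rw [← q_odd h3]; congr 1; ring
    rw [i1, i2, add_zero, add_zero, q_odd h3]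
    ring
  rw [Finset.sum_congr rfl (fun j _ => e1 j), ← Finset.mul_sum] at h
  have h' : ∑ j : Fin m, q p (J p j) * (q p (J p j + J p k) + q p (J p j - J p k)) = -1 := by linarith
  have := congrArg (Int.cast : ℤ → R) h'
  simp only [Bm, Matrix.of_apply, xv]
  push_cast at this ⊢
  exact this

lemma BBt (h3 : p % 4 = 3) {m : ℕ} (hm : p = 2 * m + 1) {R : Type*} [CommRing R] (j k : Fin m) :
    ∑ l, Bm p m R j l * Bm p m R k l = (if j = k then (p : R) else 0) - 2 * xv p m R j * xv p m R k := by
  have := congrArg (Int.cast : ℤ → R) (sum_BBt h3 hm j k)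
  simp only [Bm, Matrix.of_apply, xv]
  push_cast at this ⊢
  exact this

/-- the determinant of the matrix with the rank two perturbation, when `p` is invertible -/
lemma det_E (h3 : p % 4 = 3) {m : ℕ} (hm : p = 2 * m + 1) {R : Type*} [CommRing R] (ip : R)
    (hip : ip * p = 1) (x y w : R) :
    (Matrix.of fun j k : Fin m => x + Bm p m R j k + xv p m R j * y + xv p m R j * xv p m R k * w).det =
    (Bm p m R).det * (1 - m * y - (∑ k, xv p m R k) * (w + x)
      + w * x * ip * ((∑ k, xv p m R k) ^ 2 + m * (Wq p m : R))) := by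
  have hpm : (p : R) = 2 * m + 1 := by
    have := congrArg (Nat.cast : ℕ → R) hm
    push_cast at this; exact this
  obtain ⟨S, hS⟩ : ∃ S : R, S = ∑ k, xv p m R k := ⟨_, rfl⟩
  rw [← hS]
  -- the vector `v` with `B v = 1`
  obtain ⟨v, hv⟩ : ∃ v : Fin m → R, v = fun l => ip * ∑ k, Bm p m R k l * (1 + 2 * S * xv p m R k) :=
    ⟨_, rfl⟩
  have hqq : ∑ k : Fin m, xv p m R k * xv p m R k = m := by
    rw [Finset.sum_congr rfl (fun k _ => xv_sq hm k)]
    simp
  have hBv : ∀ j : Fin m, ∑ l, Bm p m R j l * v l = 1 := by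
    intro j
    have e1 : ∀ l, Bm p m R j l * v l = ip * ∑ k, (Bm p m R j l * Bm p m R k l) * (1 + 2 * S * xv p m R k) := by
      intro l
      simp only [hv]
      rw [mul_left_comm, Finset.mul_sum]
      congr 1
      apply Finset.sum_congr rfl
      intro k _
      ring
    rw [Finset.sum_congr rfl (fun l _ => e1 l), ← Finset.mul_sum, Finset.sum_comm]
    have e2 : ∀ k, ∑ l, (Bm p m R j l * Bm p m R k l) * (1 + 2 * S * xv p m R k) =
        (if j = k then (p : R) * (1 + 2 * S * xv p m R k) else 0)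
        - 2 * xv p m R j * (xv p m R k + 2 * S * (xv p m R k * xv p m R k)) := by
      intro k
      rw [← Finset.sum_mul, BBt h3 hm]
      split_ifs <;> ring
    rw [Finset.sum_congr rfl (fun k _ => e2 k), Finset.sum_sub_distrib, Finset.sum_ite_eq, if_pos (Finset.mem_univ _),
      ← Finset.mul_sum, Finset.sum_add_distrib, ← Finset.mul_sum, hqq, ← hS]
    linear_combination (1 : R) * hip + ip * (2 * S * xv p m R j) * hpm
  have h1v : ∑ l, v l = - S := by
    have e1 : ∀ l, v l = - ∑ j, xv p m R j * (Bm p m R j l * v l) := by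
      intro l
      have : ∑ j, xv p m R j * (Bm p m R j l * v l) = (∑ j, xv p m R j * Bm p m R j l) * v l := by
        rw [Finset.sum_mul]; apply Finset.sum_congr rfl; intro j _; ring
      rw [this, colB h3 hm]; ring
    rw [Finset.sum_congr rfl (fun l _ => e1 l), Finset.sum_neg_distrib, Finset.sum_comm]
    have e2 : ∀ j, ∑ l, xv p m R j * (Bm p m R j l * v l) = xv p m R j := by
      intro j
      rw [← Finset.mul_sum, hBv, mul_one]
    rw [Finset.sum_congr rfl (fun j _ => e2 j), hS]
  have hW : (Wq p m : R) = ∑ j, ∑ k, Bm p m R j k * xv p m R k := by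
    unfold Wq
    push_cast
    apply Finset.sum_congr rfl; intro j _
    apply Finset.sum_congr rfl; intro k _
    simp [Bm, xv]
  have hqv : ∑ l, xv p m R l * v l = ip * ((Wq p m : R) - 2 * S ^ 2) := by
    have e1 : ∀ l, xv p m R l * v l = ip * ∑ k, (Bm p m R k l * xv p m R l) * (1 + 2 * S * xv p m R k) := by
      intro l
      simp only [hv]
      rw [mul_left_comm, Finset.mul_sum]
      congr 1
      apply Finset.sum_congr rfl
      intro k _
      ring
    rw [Finset.sum_congr rfl (fun l _ => e1 l), ← Finset.mul_sum, Finset.sum_comm]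
    congr 1
    have e2 : ∀ k, ∑ l, (Bm p m R k l * xv p m R l) * (1 + 2 * S * xv p m R k) =
        ∑ l, Bm p m R k l * xv p m R l + 2 * S * ∑ l, (xv p m R k * Bm p m R k l) * xv p m R l := by
      intro k
      rw [Finset.mul_sum, ← Finset.sum_add_distrib]
      apply Finset.sum_congr rfl
      intro l _
      ring
    rw [Finset.sum_congr rfl (fun k _ => e2 k), Finset.sum_add_distrib, ← hW, ← Finset.mul_sum, Finset.sum_comm]
    have e3 : ∀ l, ∑ k, (xv p m R k * Bm p m R k l) * xv p m R l = - xv p m R l := by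
      intro l
      rw [← Finset.sum_mul, colB h3 hm]; ring
    rw [Finset.sum_congr rfl (fun l _ => e3 l), Finset.sum_neg_distrib, ← hS]
    ring
  set V : Matrix (Fin m) (Fin 2) R := Matrix.of fun j i => if i = 0 then x * v j else - 1 with hV
  set U : Matrix (Fin 2) (Fin m) R := Matrix.of fun i j => if i = 0 then 1 else y + w * xv p m R j with hU
  have hBV : ∀ j : Fin m, (Bm p m R * V) j 0 = x := by
    intro j
    rw [Matrix.mul_apply, hV]
    simp only [Matrix.of_apply, if_true]
    have e : ∀ k, Bm p m R j k * (x * v k) = x * (Bm p m R j k * v k) := by intro k; ring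
    rw [Finset.sum_congr rfl (fun k _ => e k), ← Finset.mul_sum, hBv, mul_one]
  have hBV1 : ∀ j : Fin m, (Bm p m R * V) j 1 = xv p m R j := by
    intro j
    rw [Matrix.mul_apply, hV]
    simp only [Matrix.of_apply]
    have e : ∀ k, Bm p m R j k * (if (1 : Fin 2) = 0 then x * v k else - 1) = - Bm p m R j k := by
      intro k; simp
    rw [Finset.sum_congr rfl (fun k _ => e k), Finset.sum_neg_distrib, rowB hm, neg_neg]
  have hM : (Matrix.of fun j k : Fin m => x + Bm p m R j k + xv p m R j * y
      + xv p m R j * xv p m R k * w) = Bm p m R * (1 + V * U) := by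
    rw [Matrix.mul_add, Matrix.mul_one, ← Matrix.mul_assoc]
    ext j k
    rw [Matrix.add_apply, Matrix.mul_apply (M := Bm p m R * V), Fin.sum_univ_two, hBV, hBV1, hU]
    simp only [Matrix.of_apply, if_true]
    rw [if_neg (by decide)]
    ring
  have hUV : ((1 : Matrix (Fin 2) (Fin 2) R) + U * V) =
      !![1 - x * S, - m; x * (- y * S + w * (ip * ((Wq p m : R) - 2 * S ^ 2))), 1 - m * y - w * S] := by
    ext i j
    fin_cases i <;> fin_cases j <;>
      simp only [Matrix.add_apply, Matrix.mul_apply, hV, hU, Matrix.of_apply, Fin.zero_eta, Fin.isValue,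
        Matrix.cons_val', Matrix.cons_val_zero, Matrix.cons_val_one, if_true, Fin.mk_one,
        Matrix.cons_val_fin_one]
    · have e : ∀ k : Fin m, (1 : R) * (x * v k) = x * v k := by intro k; ring
      rw [Finset.sum_congr rfl (fun k _ => e k), ← Finset.mul_sum, h1v]
      simp
      ring
    · have e : ∀ k : Fin m, (1 : R) * (if (1 : Fin 2) = 0 then x * v k else - 1) = - 1 := by
        intro k; simp
      rw [Finset.sum_congr rfl (fun k _ => e k)]
      simp
    · have e : ∀ k : Fin m, (if (1 : Fin 2) = 0 then (1 : R) else y + w * xv p m R k) * (x * v k) =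
          x * y * v k + x * w * (xv p m R k * v k) := by
        intro k; simp; ring
      rw [Finset.sum_congr rfl (fun k _ => e k), Finset.sum_add_distrib, ← Finset.mul_sum,
        ← Finset.mul_sum, h1v, hqv]
      simp
      ring
    · have e : ∀ k : Fin m, (if (1 : Fin 2) = 0 then (1 : R) else y + w * xv p m R k) *
          (if (1 : Fin 2) = 0 then x * v k else - 1) = - y - w * xv p m R k := by
        intro k; simp; ring
      rw [Finset.sum_congr rfl (fun k _ => e k), Finset.sum_sub_distrib, ← Finset.mul_sum, ← hS]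
      simp
      ring
  rw [hM, Matrix.det_mul, Matrix.det_one_add_mul_comm, hUV, Matrix.det_fin_two_of]
  have hkey : ip * (2 * m + 1) = 1 := by rw [← hpm]; exact hip
  linear_combination (Bm p m R).det * w * x * S ^ 2 * (-1 : R) * hkey

end Pool.Agent.U301.LDThree
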