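import Pool.Agent.H462R2.PiE2

set_option autoImplicit false

/-!
# Powers `n ^ (β π)` and `n ^ (β e)` of integers

Consequences of the strong six exponentials theorem for the exceptional sets of bases.
-/

namespace Pool.Agent.U301.PE

open Pool.Agent.H301R2.SSE Pool.Agent.H340R2 Pool.Agent.H462R2.PiE

theorem gen (b : ℂ) (hb : Transcendental ℚ b) (y : Fin 3 → ℂ)
    (hy : ∀ c : Fin 3 → ℂ, (∀ j, IsAlgebraic ℚ (c j)) → ∑ j, c j * y j = 0 → ∀ j, c j = 0)
    (hyL : ∀ j, y j ∈ Lt) (h : ∀ j, b * y j ∈ Lt) : False := by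
  refine strong_six ![1, b] y ?_ hy ?_
  · intro a c ha hc hac
    simp only [Matrix.cons_val_zero, Matrix.cons_val_one] at hac
    by_cases hc0 : c = 0
    · subst hc0
      refine ⟨?_, rfl⟩
      simpa using hac
    · exfalso
      apply hb
      have : b = -a / c := by
        field_simp
        linear_combination hac
      rw [this]
      exact (ha.neg).mul hc.inv
  · intro i j
    fin_cases i
    · simpa using hyL j
    · simpa using h j

/-- two logarithms -/
theorem baker2 (l m : ℂ) (hl : IsAlgebraic ℚ (Complex.exp l)) (hm : IsAlgebraic ℚ (Complex.exp m))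
    (hi : LinearIndependent ℚ ![l, m]) (c₀ c₁ c₂ : ℂ) (h0 : IsAlgebraic ℚ c₀)
    (h1 : IsAlgebraic ℚ c₁) (h2 : IsAlgebraic ℚ c₂) (h : c₀ + c₁ * l + c₂ * m = 0) :
    c₀ = 0 ∧ c₁ = 0 ∧ c₂ = 0 := by
  have := Pool.Agent.H297R2.baker_inhom (ι := Fin 2) ![l, m]
    (by
      intro i
      fin_cases i
      · exact hl
      · exact hm) hi c₀ h0 ![c₁, c₂] (by
      intro i
      fin_cases i
      · exact h1
      · exact h2) (by
      rw [Fin.sum_univ_two]
      simp only [Matrix.cons_val_zero, Matrix.cons_val_one]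
      linear_combination h)
  exact ⟨this.1, this.2 0, this.2 1⟩

theorem baker3 (l m k : ℂ) (hl : IsAlgebraic ℚ (Complex.exp l)) (hm : IsAlgebraic ℚ (Complex.exp m))
    (hk : IsAlgebraic ℚ (Complex.exp k))
    (hi : LinearIndependent ℚ ![l, m, k]) (c₁ c₂ c₃ : ℂ)
    (h1 : IsAlgebraic ℚ c₁) (h2 : IsAlgebraic ℚ c₂) (h3 : IsAlgebraic ℚ c₃)
    (h : c₁ * l + c₂ * m + c₃ * k = 0) :
    c₁ = 0 ∧ c₂ = 0 ∧ c₃ = 0 := by
  have := Pool.Agent.H297R2.baker_inhom (ι := Fin 3) ![l, m, k]
    (by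
      intro i
      fin_cases i
      · exact hl
      · exact hm
      · exact hk) hi 0 isAlgebraic_zero ![c₁, c₂, c₃] (by
      intro i
      fin_cases i
      · exact h1
      · exact h2
      · exact h3) (by
      rw [Fin.sum_univ_three]
      simp only [Matrix.cons_val_zero, Matrix.cons_val_one, Matrix.cons_val]
      linear_combination h)
  exact ⟨this.2 0, this.2 1, this.2 2⟩

/-- `π` : two logarithms -/
theorem pi_pair (l m : ℂ) (hl : IsAlgebraic ℚ (Complex.exp l)) (hm : IsAlgebraic ℚ (Complex.exp m))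
    (hi : LinearIndependent ℚ ![l, m]) (β γ : ℂ) (hβ : IsAlgebraic ℚ β) (hγ : IsAlgebraic ℚ γ)
    (hβ0 : β ≠ 0) (hγ0 : γ ≠ 0) (h1 : IsAlgebraic ℚ (Complex.exp (β * Real.pi * l)))
    (h2 : IsAlgebraic ℚ (Complex.exp (γ * Real.pi * m))) : False := by
  have hpi : Transcendental ℚ ((Real.pi : ℝ) : ℂ) := by
    intro h
    exact LW.transcendental_pi (alg_ofReal_iff.mp h)
  refine gen ((Real.pi : ℝ) : ℂ) hpi ![1, β * l, γ * m] ?_ ?_ ?_
  · intro c hc hs
    rw [Fin.sum_univ_three] at hs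
    simp only [Matrix.cons_val_zero, Matrix.cons_val_one, Matrix.cons_val] at hs
    have := baker2 l m hl hm hi (c 0) (c 1 * β) (c 2 * γ) (hc 0) ((hc 1).mul hβ) ((hc 2).mul hγ)
      (by linear_combination hs)
    intro j
    fin_cases j
    · exact this.1
    · exact (mul_eq_zero.mp this.2.1).resolve_right hβ0
    · exact (mul_eq_zero.mp this.2.2).resolve_right hγ0
  · intro j
    fin_cases j
    · exact Lt_one
    · exact Lt_mul hβ (Lt_log hl)
    · exact Lt_mul hγ (Lt_log hm)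
  · intro j
    fin_cases j
    · simpa using pi_mem
    · have := Lt_log h1
      simp only [Matrix.cons_val_one, Matrix.cons_val_zero, Fin.mk_one]
      convert this using 1
      ring
    · have := Lt_log h2
      show (Real.pi : ℂ) * (γ * m) ∈ Lt
      convert this using 1
      ring

/-- `e` : three logarithms -/
theorem e_triple (l m k : ℂ) (hl : IsAlgebraic ℚ (Complex.exp l))
    (hm : IsAlgebraic ℚ (Complex.exp m)) (hk : IsAlgebraic ℚ (Complex.exp k))
    (hi : LinearIndependent ℚ ![l, m, k]) (α β γ : ℂ) (hα : IsAlgebraic ℚ α)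
    (hβ : IsAlgebraic ℚ β) (hγ : IsAlgebraic ℚ γ) (hα0 : α ≠ 0)
    (hβ0 : β ≠ 0) (hγ0 : γ ≠ 0) (h0 : IsAlgebraic ℚ (Complex.exp (α * Real.exp 1 * l)))
    (h1 : IsAlgebraic ℚ (Complex.exp (β * Real.exp 1 * m)))
    (h2 : IsAlgebraic ℚ (Complex.exp (γ * Real.exp 1 * k))) : False := by
  have he : Transcendental ℚ ((Real.exp 1 : ℝ) : ℂ) := by
    intro h
    exact LW.transcendental_exp_one (alg_ofReal_iff.mp h)
  refine gen ((Real.exp 1 : ℝ) : ℂ) he ![α * l, β * m, γ * k] ?_ ?_ ?_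
  · intro c hc hs
    rw [Fin.sum_univ_three] at hs
    simp only [Matrix.cons_val_zero, Matrix.cons_val_one, Matrix.cons_val] at hs
    have := baker3 l m k hl hm hk hi (c 0 * α) (c 1 * β) (c 2 * γ) ((hc 0).mul hα)
      ((hc 1).mul hβ) ((hc 2).mul hγ) (by linear_combination hs)
    intro j
    fin_cases j
    · exact (mul_eq_zero.mp this.1).resolve_right hα0
    · exact (mul_eq_zero.mp this.2.1).resolve_right hβ0
    · exact (mul_eq_zero.mp this.2.2).resolve_right hγ0
  · intro j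
    fin_cases j
    · exact Lt_mul hα (Lt_log hl)
    · exact Lt_mul hβ (Lt_log hm)
    · exact Lt_mul hγ (Lt_log hk)
  · intro j
    fin_cases j
    · have := Lt_log h0
      show ((Real.exp 1 : ℝ) : ℂ) * (α * l) ∈ Lt
      convert this using 1
      ring
    · have := Lt_log h1
      show ((Real.exp 1 : ℝ) : ℂ) * (β * m) ∈ Lt
      convert this using 1
      ring
    · have := Lt_log h2
      show ((Real.exp 1 : ℝ) : ℂ) * (γ * k) ∈ Lt
      convert this using 1
      ring

/-- `e` : two logarithms force the transcendence of `e y + z` -/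
theorem e_rigid (l m : ℂ) (hl : IsAlgebraic ℚ (Complex.exp l))
    (hm : IsAlgebraic ℚ (Complex.exp m)) (hi : LinearIndependent ℚ ![l, m]) (β γ : ℂ)
    (hβ : IsAlgebraic ℚ β) (hγ : IsAlgebraic ℚ γ)
    (hβ0 : β ≠ 0) (hγ0 : γ ≠ 0)
    (h1 : IsAlgebraic ℚ (Complex.exp (β * Real.exp 1 * l)))
    (h2 : IsAlgebraic ℚ (Complex.exp (γ * Real.exp 1 * m))) (y z : ℂ) (hy : y ∈ Lt) (hz : z ∈ Lt)
    (hyn : y ∉ Submodule.span QB {l, m}) : Transcendental ℚ ((Real.exp 1 : ℝ) * y + z) := by
  intro halg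
  have he : Transcendental ℚ ((Real.exp 1 : ℝ) : ℂ) := by
    intro h
    exact LW.transcendental_exp_one (alg_ofReal_iff.mp h)
  have hey : ((Real.exp 1 : ℝ) : ℂ) * y ∈ Lt := by
    have : ((Real.exp 1 : ℝ) : ℂ) * y = (((Real.exp 1 : ℝ) : ℂ) * y + z) - z := by ring
    rw [this]
    exact Lt.sub_mem (Lt_alg halg) hz
  refine gen ((Real.exp 1 : ℝ) : ℂ) he ![y, β * l, γ * m] ?_ ?_ ?_
  · intro c hc hs
    rw [Fin.sum_univ_three] at hs
    simp only [Matrix.cons_val_zero, Matrix.cons_val_one, Matrix.cons_val] at hs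
    have hc0 : c 0 = 0 := by
      by_contra hne
      apply hyn
      rw [Submodule.mem_span_pair]
      refine ⟨⟨-(c 1 * β) / c 0, mem_QB.mpr (((hc 1).mul hβ).neg.mul (hc 0).inv)⟩,
        ⟨-(c 2 * γ) / c 0, mem_QB.mpr (((hc 2).mul hγ).neg.mul (hc 0).inv)⟩, ?_⟩
      show (-(c 1 * β) / c 0) * l + (-(c 2 * γ) / c 0) * m = y
      field_simp
      linear_combination -hs
    have := baker2 l m hl hm hi 0 (c 1 * β) (c 2 * γ) isAlgebraic_zero ((hc 1).mul hβ)
      ((hc 2).mul hγ) (by rw [hc0] at hs; linear_combination hs)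
    intro j
    fin_cases j
    · exact hc0
    · exact (mul_eq_zero.mp this.2.1).resolve_right hβ0
    · exact (mul_eq_zero.mp this.2.2).resolve_right hγ0
  · intro j
    fin_cases j
    · exact hy
    · exact Lt_mul hβ (Lt_log hl)
    · exact Lt_mul hγ (Lt_log hm)
  · intro j
    fin_cases j
    · exact hey
    · have := Lt_log h1
      show ((Real.exp 1 : ℝ) : ℂ) * (β * l) ∈ Lt
      convert this using 1
      ring
    · have := Lt_log h2
      show ((Real.exp 1 : ℝ) : ℂ) * (γ * m) ∈ Lt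
      convert this using 1
      ring

/-! ### integers -/

theorem dep_pow {m n : ℕ} (hm : 2 ≤ m) (hn : 2 ≤ n) (h : ¬ Indep ![m, n]) :
    ∃ a b : ℕ, 1 ≤ a ∧ 1 ≤ b ∧ m ^ a = n ^ b := by
  unfold Indep at h
  push Not at h
  obtain ⟨k, hk, hk0⟩ := h
  rw [Fin.prod_univ_two] at hk
  simp only [Matrix.cons_val_zero, Matrix.cons_val_one] at hk
  have hm1 : (1 : ℚ) < m := by exact_mod_cast hm
  have hn1 : (1 : ℚ) < n := by exact_mod_cast hn
  have hm0 : (0 : ℚ) < m := by linarith
  have hn0 : (0 : ℚ) < n := by linarith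
  -- signs
  have key : ∀ i j : ℤ, (m : ℚ) ^ i * (n : ℚ) ^ j = 1 → 0 < i → j < 0 := by
    intro i j hij hi
    by_contra hj
    push Not at hj
    have h1 : 1 < (m : ℚ) ^ i := one_lt_zpow₀ hm1 hi
    have h2 : 1 ≤ (n : ℚ) ^ j := one_le_zpow₀ hn1.le hj
    nlinarith
  have main : ∀ i j : ℤ, (m : ℚ) ^ i * (n : ℚ) ^ j = 1 → 0 < i →
      ∃ a b : ℕ, 1 ≤ a ∧ 1 ≤ b ∧ m ^ a = n ^ b := by
    intro i j hij hi
    have hj := key i j hij hi
    refine ⟨i.toNat, (-j).toNat, by omega, by omega, ?_⟩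
    have h1 : (m : ℚ) ^ i = (n : ℚ) ^ (-j) := by
      rw [zpow_neg]
      field_simp
      linear_combination hij
    have h2 : ((i.toNat : ℤ)) = i := Int.toNat_of_nonneg hi.le
    have h3 : (((-j).toNat : ℤ)) = -j := Int.toNat_of_nonneg (by omega)
    have h4 : (m : ℚ) ^ i.toNat = (n : ℚ) ^ (-j).toNat := by
      rw [← zpow_natCast, ← zpow_natCast, h2, h3]
      exact h1
    exact_mod_cast h4
  rcases lt_trichotomy (k 0) 0 with h0 | h0 | h0
  · refine main (-k 0) (-k 1) ?_ (by omega)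
    rw [zpow_neg, zpow_neg, ← mul_inv, hk, inv_one]
  · exfalso
    rw [h0, zpow_zero, one_mul] at hk
    have h1 : k 1 = 0 := by
      rcases lt_trichotomy (k 1) 0 with h2 | h2 | h2
      · have : 1 < (n : ℚ) ^ (-k 1) := one_lt_zpow₀ hn1 (by omega)
        rw [zpow_neg, hk, inv_one] at this
        exact absurd this (lt_irrefl _)
      · exact h2
      · have : 1 < (n : ℚ) ^ (k 1) := one_lt_zpow₀ hn1 h2
        rw [hk] at this
        exact absurd this (lt_irrefl _)
    apply hk0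
    ext i
    fin_cases i
    · exact h0
    · exact h1
  · exact main (k 0) (k 1) hk h0

/-- pairwise multiplicatively dependent integers are powers of one integer -/
theorem powers (S : Set ℕ) (hS : ∀ n ∈ S, 2 ≤ n) (hdep : ∀ m ∈ S, ∀ n ∈ S, ¬ Indep ![m, n]) :
    ∃ c : ℕ, 2 ≤ c ∧ ∀ n ∈ S, ∃ k : ℕ, 1 ≤ k ∧ n = c ^ k := by
  classical
  rcases S.eq_empty_or_nonempty with rfl | ⟨n₁, hn₁⟩
  · exact ⟨2, le_refl _, fun n hn => absurd hn (by simp)⟩
  let T : ℕ → Prop := fun c => 2 ≤ c ∧ ∃ a b : ℕ, 1 ≤ a ∧ 1 ≤ b ∧ c ^ a = n₁ ^ b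
  have hT : ∃ c, T c := ⟨n₁, hS n₁ hn₁, 1, 1, le_refl _, le_refl _, rfl⟩
  obtain ⟨hc2, a₀, b₀, ha₀, hb₀, hab₀⟩ := Nat.find_spec hT
  set c := Nat.find hT with hc
  have step : ∀ n : ℕ, T n → ∃ k : ℕ, 1 ≤ k ∧ n = c ^ k := by
    intro n
    induction n using Nat.strong_induction_on with
    | _ n ih =>
      intro hn
      have hcn : c ≤ n := Nat.find_min' hT hn
      rcases eq_or_lt_of_le hcn with h | h
      · exact ⟨1, le_refl _, by rw [pow_one]; exact h.symm⟩
      · obtain ⟨hn2, a, b, ha, hb, hab⟩ := hn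
        -- `n ^ (a * b₀) = c ^ (a₀ * b)`
        have h1 : n ^ (a * b₀) = c ^ (a₀ * b) := by
          rw [pow_mul, hab, ← pow_mul, pow_mul c, hab₀, ← pow_mul]
          congr 1
          ring
        have hA : 1 ≤ a * b₀ := Nat.mul_pos ha hb₀
        have hB : a * b₀ < a₀ * b := by
          by_contra hcon
          push Not at hcon
          have h2 : c ^ (a₀ * b) ≤ c ^ (a * b₀) := Nat.pow_le_pow_right (by omega) hcon
          have h3 : c ^ (a * b₀) < n ^ (a * b₀) := Nat.pow_lt_pow_left h (by omega)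
          omega
        have hdvd : c ∣ n := by
          rw [← Nat.pow_dvd_pow_iff (n := a * b₀) (by omega), h1]
          exact pow_dvd_pow _ hB.le
        obtain ⟨d, hd⟩ := hdvd
        have hd2 : d ^ (a * b₀) = c ^ (a₀ * b - a * b₀) := by
          have h4 : c ^ (a * b₀) * d ^ (a * b₀) = c ^ (a * b₀) * c ^ (a₀ * b - a * b₀) := by
            rw [← mul_pow, ← hd, h1, ← pow_add]
            congr 1
            omega
          exact Nat.eq_of_mul_eq_mul_left (pow_pos (by omega) _) h4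
        have hdge : 2 ≤ d := by
          by_contra hcon
          have : d = 0 ∨ d = 1 := by omega
          have h5 : 1 < c ^ (a₀ * b - a * b₀) := Nat.one_lt_pow (by omega) (by omega)
          rcases this with h6 | h6
          · rw [h6] at hd
            omega
          · rw [h6, one_pow] at hd2
            omega
        have hdT : T d := by
          refine ⟨hdge, (a * b₀) * a₀, b₀ * (a₀ * b - a * b₀), ?_, ?_, ?_⟩
          · exact Nat.mul_pos (by omega) ha₀
          · exact Nat.mul_pos (by omega) (by omega)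
          · rw [pow_mul, hd2, ← pow_mul, mul_comm (a₀ * b - a * b₀) a₀, pow_mul, hab₀, ← pow_mul]
        have hdn : d < n := by
          rw [hd]
          nlinarith
        obtain ⟨k, hk1, hk⟩ := ih d hdn hdT
        exact ⟨k + 1, by omega, by rw [hd, hk, pow_succ, mul_comm]⟩
  refine ⟨c, hc2, fun n hn => step n ⟨hS n hn, ?_⟩⟩
  exact dep_pow (hS n hn) (hS n₁ hn₁) (hdep n hn n₁ hn₁)

end Pool.Agent.U301.PE
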